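import Mathlib

/-!
# Mutually orthogonal Knut Vik designs (MP_4d47e8_co)

`K(25^a m) >= 3` for `a >= 1`, `gcd(m,30)=1`, and `K(49^a m) >= 5` for `a >= 1`, `gcd(m,210)=1`.
-/

namespace Pool.Agent.Results.MP_4d47e8_co.BeyondLinear

/-- Latin square of order `n`: rows and columns indexed by `ZMod n`, symbols in `ZMod n`. -/
def IsLatin {n : ℕ} (L : ZMod n → ZMod n → ZMod n) : Prop :=
  (∀ i, Function.Bijective fun j => L i j) ∧ (∀ j, Function.Bijective fun i => L i j)

/-- Knut Vik design: a latin square whose entries on every broken diagonal, in both directions,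
are pairwise distinct. -/
def IsKnutVik {n : ℕ} (L : ZMod n → ZMod n → ZMod n) : Prop :=
  IsLatin L ∧ (∀ i j, Function.Injective fun r => L (i + r) (j + r)) ∧
    (∀ i j, Function.Injective fun r => L (i + r) (j - r))

/-- Orthogonality: the `n^2` ordered pairs are all distinct. -/
def Orth {n : ℕ} (L M : ZMod n → ZMod n → ZMod n) : Prop :=
  Function.Injective fun p : ZMod n × ZMod n => (L p.1 p.2, M p.1 p.2)

/-- There are `k` pairwise orthogonal Knut Vik designs of order `n` (that is `K(n) ≥ k`). -/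
def HasKV (n k : ℕ) : Prop :=
  ∃ L : Fin k → ZMod n → ZMod n → ZMod n,
    (∀ a, IsKnutVik (L a)) ∧ ∀ a b, a ≠ b → Orth (L a) (L b)

def Inj (n : ℕ) (f : ℕ → ℤ) : Prop := ∀ x < n, ∀ y < n, (n : ℤ) ∣ f x - f y → x = y

def Sys (n k : ℕ) : Prop :=
  ∃ θ : Fin k → ℕ → ℤ, (∀ i, Inj n (θ i)) ∧ (∀ i, Inj n (fun x => θ i x - x)) ∧
    (∀ i, Inj n (fun x => θ i x + x)) ∧ ∀ i j, i ≠ j → Inj n (fun x => θ i x - θ j x)

theorem Inj.prod {m n : ℕ} (hm : 0 < m) {f g h : ℕ → ℤ} (hf : Inj m f) (hg : Inj n g)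
    (hh : ∀ x, h x = f (x % m) + m * g (x / m)) : Inj (m * n) h := by
  intro x hx y hy hd
  rw [hh x, hh y] at hd
  have hd' : ((m : ℤ) * n) ∣ (f (x % m) - f (y % m)) + m * (g (x / m) - g (y / m)) := by
    have e : f (x % m) + m * g (x / m) - (f (y % m) + m * g (y / m))
        = (f (x % m) - f (y % m)) + m * (g (x / m) - g (y / m)) := by ring
    rw [e] at hd
    exact_mod_cast hd
  have h1 : (m : ℤ) ∣ f (x % m) - f (y % m) := by
    have h2 : (m : ℤ) ∣ (f (x % m) - f (y % m)) + m * (g (x / m) - g (y / m)) :=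
      dvd_trans (Dvd.intro _ rfl) hd'
    exact (dvd_add_left (Dvd.intro _ rfl)).1 h2
  have h3 : x % m = y % m := hf _ (Nat.mod_lt _ hm) _ (Nat.mod_lt _ hm) h1
  have h4 : (m : ℤ) * n ∣ m * (g (x / m) - g (y / m)) := by
    rw [h3] at hd'
    simpa using hd'
  have h5 : (n : ℤ) ∣ g (x / m) - g (y / m) :=
    Int.dvd_of_mul_dvd_mul_left (by exact_mod_cast hm.ne') h4
  have hxn : x / m < n := Nat.div_lt_of_lt_mul hx
  have hyn : y / m < n := Nat.div_lt_of_lt_mul hy
  have h6 : x / m = y / m := hg _ hxn _ hyn h5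
  calc x = m * (x / m) + x % m := (Nat.div_add_mod x m).symm
    _ = m * (y / m) + y % m := by rw [h3, h6]
    _ = y := Nat.div_add_mod y m

theorem Sys.prod {m n k : ℕ} (hm : 0 < m) (h1 : Sys m k) (h2 : Sys n k) : Sys (m * n) k := by
  obtain ⟨f, f0, f1, f2, f3⟩ := h1
  obtain ⟨g, g0, g1, g2, g3⟩ := h2
  have hx : ∀ x : ℕ, (x : ℤ) = ((x % m : ℕ) : ℤ) + m * ((x / m : ℕ) : ℤ) := by
    intro x
    have := Nat.mod_add_div x m
    exact_mod_cast this.symm
  refine ⟨fun i x => f i (x % m) + m * g i (x / m), ?_, ?_, ?_, ?_⟩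
  · intro i
    exact Inj.prod hm (f0 i) (g0 i) (fun x => rfl)
  · intro i
    refine Inj.prod hm (f1 i) (g1 i) (fun x => ?_)
    have := hx x
    simp only
    linear_combination -this
  · intro i
    refine Inj.prod hm (f2 i) (g2 i) (fun x => ?_)
    have := hx x
    simp only
    linear_combination this
  · intro i j hij
    refine Inj.prod hm (f3 i j hij) (g3 i j hij) (fun x => ?_)
    simp only
    ring

theorem Sys.pow {n k : ℕ} (hn : 0 < n) (h : Sys n k) {m : ℕ} (hm : Sys m k) (a : ℕ) :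
    Sys (n ^ a * m) k := by
  induction a with
  | zero => simpa using hm
  | succ a ih =>
    have : n ^ (a + 1) * m = n * (n ^ a * m) := by ring
    rw [this]
    exact Sys.prod hn h ih

theorem cast_eq {n : ℕ} {a b : ℤ} (h : (a : ZMod n) = (b : ZMod n)) : (n : ℤ) ∣ a - b := by
  have := (ZMod.intCast_eq_intCast_iff_dvd_sub a b n).1 h
  exact (dvd_sub_comm).1 this

theorem Sys.hasKV {n k : ℕ} (hn : 0 < n) (h : Sys n k) : HasKV n k := by
  haveI : NeZero n := ⟨hn.ne'⟩
  obtain ⟨f, f0, f1, f2, f3⟩ := h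
  have key : ∀ (g : ℕ → ℤ), Inj n g → ∀ i i' : ZMod n,
      ((g i.val : ℤ) : ZMod n) = ((g i'.val : ℤ) : ZMod n) → i = i' := by
    intro g hg i i' h
    exact ZMod.val_injective n (hg _ (ZMod.val_lt i) _ (ZMod.val_lt i') (cast_eq h))
  refine ⟨fun a i j => j + ((f a i.val : ℤ) : ZMod n), ?_, ?_⟩
  · intro a
    refine ⟨⟨?_, ?_⟩, ?_, ?_⟩
    · intro i
      exact (Equiv.addRight _).bijective
    · intro j
      refine (Finite.injective_iff_bijective).1 ?_
      intro i i' h
      exact key _ (f0 a) i i' (add_left_cancel h)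
    · intro i j r r' h
      simp only at h
      have h1 : ∀ r : ZMod n, j + r + ((f a (i + r).val : ℤ) : ZMod n)
          = (j - i) + ((f a (i + r).val + ((i + r).val : ℕ) : ℤ) : ZMod n) := by
        intro r
        push_cast
        rw [ZMod.natCast_zmod_val]
        ring
      rw [h1, h1] at h
      have := key _ (f2 a) (i + r) (i + r') (add_left_cancel h)
      exact add_left_cancel this
    · intro i j r r' h
      simp only at h
      have h1 : ∀ r : ZMod n, j - r + ((f a (i + r).val : ℤ) : ZMod n)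
          = (j + i) + ((f a (i + r).val - ((i + r).val : ℕ) : ℤ) : ZMod n) := by
        intro r
        push_cast
        rw [ZMod.natCast_zmod_val]
        ring
      rw [h1, h1] at h
      have := key _ (f1 a) (i + r) (i + r') (add_left_cancel h)
      exact add_left_cancel this
  · rintro a b hab ⟨i, j⟩ ⟨i', j'⟩ h
    simp only [Prod.mk.injEq] at h
    obtain ⟨h1, h2⟩ := h
    have h3 : ((f a i.val - f b i.val : ℤ) : ZMod n) = ((f a i'.val - f b i'.val : ℤ) : ZMod n) := by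
      push_cast
      linear_combination h1 - h2
    have h4 : i = i' := key _ (f3 a b hab) i i' h3
    subst h4
    have h5 : j = j' := add_right_cancel h1
    rw [h5]

theorem lin {m : ℕ} {c : ℤ} (h : IsCoprime (m : ℤ) c) {f : ℕ → ℤ} (hf : ∀ x, f x = c * x) :
    Inj m f := by
  intro x hx y hy hd
  rw [hf, hf, ← mul_sub] at hd
  have h1 : (m : ℤ) ∣ (x : ℤ) - y := h.dvd_of_dvd_mul_left hd
  have h2 : (x : ℤ) - y = 0 := by
    apply Int.eq_zero_of_abs_lt_dvd h1
    rw [abs_lt]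
    constructor <;> omega
  omega

theorem copr {m N : ℕ} (h : Nat.Coprime m N) {c : ℤ} (hc : c ∣ ((N * N : ℕ) : ℤ)) :
    IsCoprime (m : ℤ) c :=
  IsCoprime.of_isCoprime_of_dvd_right
    ((Nat.isCoprime_iff_coprime).2 (Nat.Coprime.mul_right h h)) hc

theorem Sys.linear3 {m : ℕ} (h : Nat.Coprime m 30) : Sys m 3 := by
  refine ⟨fun i x => (((i : ℕ) : ℤ) + 2) * x, ?_, ?_, ?_, ?_⟩
  · intro i
    refine lin (c := ((i : ℕ) : ℤ) + 2) (copr h ?_) (fun x => by simp only)
    fin_cases i <;> norm_num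
  · intro i
    refine lin (c := ((i : ℕ) : ℤ) + 1) (copr h ?_) (fun x => by simp only; ring)
    fin_cases i <;> norm_num
  · intro i
    refine lin (c := ((i : ℕ) : ℤ) + 3) (copr h ?_) (fun x => by simp only; ring)
    fin_cases i <;> norm_num
  · intro i j hij
    refine lin (c := ((i : ℕ) : ℤ) - (j : ℕ)) (copr h ?_) (fun x => by simp only; ring)
    fin_cases i <;> fin_cases j <;> first | exact absurd rfl hij | norm_num

theorem Sys.linear5 {m : ℕ} (h : Nat.Coprime m 210) : Sys m 5 := by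
  refine ⟨fun i x => (((i : ℕ) : ℤ) + 2) * x, ?_, ?_, ?_, ?_⟩
  · intro i
    refine lin (c := ((i : ℕ) : ℤ) + 2) (copr h ?_) (fun x => by simp only)
    fin_cases i <;> norm_num
  · intro i
    refine lin (c := ((i : ℕ) : ℤ) + 1) (copr h ?_) (fun x => by simp only; ring)
    fin_cases i <;> norm_num
  · intro i
    refine lin (c := ((i : ℕ) : ℤ) + 3) (copr h ?_) (fun x => by simp only; ring)
    fin_cases i <;> norm_num
  · intro i j hij
    refine lin (c := ((i : ℕ) : ℤ) - (j : ℕ)) (copr h ?_) (fun x => by simp only; ring)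
    fin_cases i <;> fin_cases j <;> first | exact absurd rfl hij | norm_num

def T25 : List (List ℕ) :=
  [[0,2,6,12,16,7,21,14,3,15,24,8,20,5,17,1,10,22,11,4,18,9,13,19,23],
   [0,3,11,24,7,10,13,21,9,17,20,23,6,19,2,5,8,16,4,12,15,18,1,14,22],
   [0,11,4,19,17,13,24,2,7,5,16,22,15,10,3,9,20,18,23,1,12,8,6,21,14]]

def T49 : List (List ℕ) :=
  [[0,2,18,12,9,20,33,28,32,22,6,1,41,19,7,4,39,5,36,38,3,35,25,15,26,23,34,24,14,46,11,13,44,10,45,42,30,8,48,43,27,17,21,16,29,40,37,31,47],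
   [0,11,1,20,15,17,10,14,37,4,33,30,3,31,28,23,43,41,2,13,5,42,9,25,27,22,24,40,7,44,36,47,8,6,26,21,18,46,19,16,45,12,35,39,32,34,29,48,38],
   [0,21,3,25,29,9,11,23,34,16,2,41,48,44,4,43,13,19,35,7,31,27,37,32,10,39,17,12,22,18,42,14,30,36,6,45,5,1,8,47,33,15,26,38,40,20,24,46,28],
   [0,26,38,15,48,25,37,35,40,3,29,13,39,2,21,5,17,43,27,4,16,7,19,31,8,41,18,30,42,33,45,22,6,32,44,28,47,10,36,20,46,9,14,12,24,1,34,11,23],
   [0,31,34,16,12,43,46,21,10,13,44,40,22,25,42,38,41,23,19,1,4,14,17,20,2,47,29,32,35,45,48,30,26,8,11,7,24,27,9,5,36,39,28,3,6,37,33,15,18]]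

def tab (T : List (List ℕ)) (i x : ℕ) : ℤ := (((T.getD i []).getD x 0 : ℕ) : ℤ)

instance (n : ℕ) (f : ℕ → ℤ) : Decidable (Inj n f) := by
  unfold Inj; infer_instance

theorem sys25 : Sys 25 3 := by
  refine ⟨fun i x => tab T25 i x, ?_, ?_, ?_, ?_⟩ <;> decide +kernel

theorem sys49 : Sys 49 5 := by
  refine ⟨fun i x => tab T49 i x, ?_, ?_, ?_, ?_⟩ <;> decide +kernel

theorem result :
    (∀ a m : ℕ, 0 < a → Nat.Coprime m 30 → HasKV (25 ^ a * m) 3) ∧
    (∀ a m : ℕ, 0 < a → Nat.Coprime m 210 → HasKV (49 ^ a * m) 5) := by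
  constructor
  · intro a m _ hm
    have hm0 : 0 < m := by
      rcases Nat.eq_zero_or_pos m with h | h
      · subst h; norm_num at hm
      · exact h
    exact Sys.hasKV (by positivity) (Sys.pow (by norm_num) sys25 (Sys.linear3 hm) a)
  · intro a m _ hm
    have hm0 : 0 < m := by
      rcases Nat.eq_zero_or_pos m with h | h
      · subst h; norm_num at hm
      · exact h
    exact Sys.hasKV (by positivity) (Sys.pow (by norm_num) sys49 (Sys.linear5 hm) a)

end Pool.Agent.Results.MP_4d47e8_co.BeyondLinear
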